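import Mathlib
import Pool.Agent.Y381.UC.Defs

/-! # The numbers of balls after one step -/

set_option autoImplicit false

open Finset Pool.Agent.TH996.Urn Pool.Agent.Y381.UC

namespace Pool.Agent.Y74.UC.NB

variable {n s : ℕ}

theorem adj_iff (v w : Fin (n + 4)) :
    (SimpleGraph.cycleGraph (n + 4)).Adj v w ↔ (w = v + 1 ∨ v = w + 1) := by
  rw [SimpleGraph.cycleGraph_adj]
  constructor
  · rintro (h | h)
    · right
      rw [sub_eq_iff_eq_add'] at h
      exact h
    · left
      rw [sub_eq_iff_eq_add'] at h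
      exact h
  · rintro (h | h)
    · right
      rw [sub_eq_iff_eq_add']
      exact h
    · left
      rw [sub_eq_iff_eq_add']
      exact h

theorem zero_of_ne {x : Config (Fin (n + 4)) s} {χ : Fin (n + 4) → Fin s} (h : Compat x χ)
    {w : Fin (n + 4)} {d : Fin s} (hd : d ≠ χ w) : x w d = 0 := by
  by_contra hx
  exact hd (h w d (Nat.pos_of_ne_zero hx))

theorem nb_eq {x : Config (Fin (n + 4)) s} {χ : Fin (n + 4) → Fin s} (h : Compat x χ)
    (w : Fin (n + 4)) : nb x w = x w (χ w) := by
  unfold nb
  apply Finset.sum_eq_single (χ w)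
  · intro d _ hd
    exact zero_of_ne h hd
  · intro hh
    exact absurd (Finset.mem_univ _) hh

/-- not a neighbour -/
theorem step_far (x : Config (Fin (n + 4)) s) (v w : Fin (n + 4)) (c d : Fin s)
    (hw : ¬ (w = v + 1 ∨ v = w + 1)) :
    step (SimpleGraph.cycleGraph (n + 4)) x v c w d = x w d := by
  have : ¬ (SimpleGraph.cycleGraph (n + 4)).Adj v w := fun h => hw ((adj_iff v w).1 h)
  simp [step, this]

/-- a neighbour with the same colour or empty -/
theorem step_same {x : Config (Fin (n + 4)) s} (v w : Fin (n + 4)) (c d : Fin s)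
    (hw : (w = v + 1 ∨ v = w + 1)) (he : ¬ ∃ e, e ≠ c ∧ 0 < x w e) :
    step (SimpleGraph.cycleGraph (n + 4)) x v c w d = if d = c then x w d + 1 else x w d := by
  have : (SimpleGraph.cycleGraph (n + 4)).Adj v w := (adj_iff v w).2 hw
  simp only [step, this, if_true, if_neg he]

/-- a neighbour with another colour -/
theorem step_diff {x : Config (Fin (n + 4)) s} (v w : Fin (n + 4)) (c d : Fin s)
    (hw : (w = v + 1 ∨ v = w + 1)) (he : ∃ e, e ≠ c ∧ 0 < x w e) :
    step (SimpleGraph.cycleGraph (n + 4)) x v c w d = if d = c then x w d else x w d - 1 := by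
  have : (SimpleGraph.cycleGraph (n + 4)).Adj v w := (adj_iff v w).2 hw
  simp only [step, this, if_true, if_pos he]

theorem ex_iff {x : Config (Fin (n + 4)) s} {χ : Fin (n + 4) → Fin s} (h : Compat x χ)
    (w : Fin (n + 4)) (c : Fin s) :
    (∃ e, e ≠ c ∧ 0 < x w e) ↔ (χ w ≠ c ∧ nb x w ≠ 0) := by
  rw [nb_eq h w]
  constructor
  · rintro ⟨e, he, hx⟩
    have := h w e hx
    subst this
    exact ⟨he, by omega⟩
  · rintro ⟨h1, h2⟩
    exact ⟨χ w, h1, by omega⟩

theorem t_NB : S_NB := by
  intro n s x χ v w c hC hc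
  have hcv : c = χ v := hC v c hc
  subst hcv
  refine ⟨?_, ?_, ?_, ?_, ?_⟩
  · intro hw
    unfold nb
    exact Finset.sum_congr rfl (fun d _ => step_far x v w (χ v) d hw)
  · intro hw h0
    have he : ¬ ∃ e, e ≠ χ v ∧ 0 < x w e := by
      rw [ex_iff hC]
      rintro ⟨_, h2⟩
      exact h2 h0
    have hz : ∀ d, x w d = 0 := by
      intro d
      unfold nb at h0
      exact (Finset.sum_eq_zero_iff.1 h0) d (Finset.mem_univ _)
    unfold nb
    rw [Finset.sum_congr rfl (fun d _ => step_same v w (χ v) d hw he)]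
    simp [hz]
  · intro hw hcol
    have he : ¬ ∃ e, e ≠ χ v ∧ 0 < x w e := by
      rw [ex_iff hC]
      rintro ⟨h1, _⟩
      exact h1 hcol
    rw [nb_eq hC w]
    unfold nb
    rw [Finset.sum_congr rfl (fun d _ => step_same v w (χ v) d hw he)]
    rw [Finset.sum_eq_single (χ v)]
    · simp [hcol]
    · intro d _ hd
      rw [if_neg hd]
      exact zero_of_ne hC (by rw [hcol]; exact hd)
    · intro hh
      exact absurd (Finset.mem_univ _) hh
  · intro hw hcol h0
    have he : ∃ e, e ≠ χ v ∧ 0 < x w e := (ex_iff hC w (χ v)).2 ⟨hcol, h0⟩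
    rw [nb_eq hC w] at h0 ⊢
    unfold nb
    rw [Finset.sum_congr rfl (fun d _ => step_diff v w (χ v) d hw he)]
    rw [Finset.sum_eq_single (χ w)]
    · rw [if_neg hcol]
      omega
    · intro d _ hd
      have := zero_of_ne hC hd
      split_ifs <;> omega
    · intro hh
      exact absurd (Finset.mem_univ _) hh
  · intro u d hd
    unfold upd
    by_cases hu : (u = v + 1 ∨ v = u + 1)
    · by_cases he : ∃ e, e ≠ χ v ∧ 0 < x u e
      · rw [step_diff v u (χ v) d hu he] at hd
        obtain ⟨h1, h2⟩ := (ex_iff hC u (χ v)).1 he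
        rw [if_neg (fun h => h2 h.2)]
        have hx : 0 < x u d := by
          split_ifs at hd <;> omega
        exact hC u d hx
      · rw [step_same v u (χ v) d hu he] at hd
        by_cases hdv : d = χ v
        · split_ifs with h
          · exact hdv
          · have h0 : nb x u ≠ 0 := fun h0 => h ⟨hu, h0⟩
            rw [ex_iff hC] at he
            by_contra hne
            exact he ⟨fun h => hne (by rw [h]; exact hdv), h0⟩
        · rw [if_neg hdv] at hd
          have h0 : nb x u ≠ 0 := by
            rw [nb_eq hC u]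
            have := hC u d hd
            rw [← this]
            omega
          rw [if_neg (fun h => h0 h.2)]
          exact hC u d hd
    · rw [step_far x v u (χ v) d hu] at hd
      rw [if_neg (fun h => hu h.1)]
      exact hC u d hd

end Pool.Agent.Y74.UC.NB
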